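import Pool.Agent.H369.TH.Stm

set_option autoImplicit false

namespace Pool.Agent.H922.TH

open TensorProduct Pool.Agent.H369.TH

section linalg
variable {k E : Type} [Field k] [AddCommGroup E] [Module k E]

theorem exists_proj (V : Submodule k E) (j : ℕ)
    (τ : ℕ → E →ₗ[k] k) : ∃ s : ℕ → E, (∀ l, s l ∈ V) ∧
      ∀ v ∈ V, ∀ l < j, τ l (v - ∑ i ∈ Finset.range j, τ i v • s i) = 0 := by
  classical
  let Tm : V →ₗ[k] (Fin j → k) := LinearMap.pi (fun i => (τ i) ∘ₗ V.subtype)
  obtain ⟨g, hg⟩ := LinearMap.exists_rightInverse_of_surjective Tm.rangeRestrict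
    (LinearMap.range_rangeRestrict Tm)
  obtain ⟨S, hS⟩ := LinearMap.exists_extend g
  have key : ∀ v : V, Tm (S (Tm v)) = Tm v := by
    intro v
    have h1 : S (Tm v) = g (Tm.rangeRestrict v) := LinearMap.congr_fun hS (Tm.rangeRestrict v)
    have h2 : Tm.rangeRestrict (g (Tm.rangeRestrict v)) = Tm.rangeRestrict v :=
      LinearMap.congr_fun hg _
    rw [h1]
    exact congrArg Subtype.val h2
  refine ⟨fun l => if h : l < j then (S (Pi.single ⟨l, h⟩ 1) : E) else 0, ?_, ?_⟩
  · intro l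
    dsimp only
    split_ifs with h
    · exact (S _).2
    · exact V.zero_mem
  · intro v hv l hl
    have h3 : ∑ i ∈ Finset.range j, τ i v • (if h : i < j then (S (Pi.single ⟨i, h⟩ 1) : E) else 0)
        = (S (Tm ⟨v, hv⟩) : E) := by
      rw [Finset.sum_range]
      have h4 : Tm ⟨v, hv⟩ = ∑ i : Fin j, τ i v • (Pi.single i 1 : Fin j → k) := by
        funext i
        rw [Finset.sum_apply, Finset.sum_eq_single i]
        · simp [Tm]
        · intro b _ hb
          simp [hb.symm]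
        · intro h; exact absurd (Finset.mem_univ _) h
      rw [h4, map_sum, Submodule.coe_sum]
      refine Finset.sum_congr rfl fun i _ => ?_
      rw [map_smul, Submodule.coe_smul, dif_pos i.2]
    rw [h3, map_sub, sub_eq_zero]
    exact (congrFun (key ⟨v, hv⟩) ⟨l, hl⟩).symm

/-- tensors killed by the functionals on both sides -/
theorem mem_UU (V : Submodule k E) (j : ℕ) (τ : ℕ → E →ₗ[k] k) (H : E ⊗[k] E)
    (hH : H ∈ LinearMap.range (TensorProduct.map V.subtype V.subtype))
    (h1 : ∀ l < j, (TensorProduct.rid k E) (TensorProduct.map LinearMap.id (τ l) H) = 0)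
    (h2 : ∀ l < j, (TensorProduct.lid k E) (TensorProduct.map (τ l) LinearMap.id H) = 0) :
    H ∈ Submodule.span k {z : E ⊗[k] E | ∃ u w : E, (u ∈ V ∧ ∀ l < j, τ l u = 0) ∧
      (w ∈ V ∧ ∀ l < j, τ l w = 0) ∧ z = u ⊗ₜ[k] w} := by
  obtain ⟨s, hs, hs2⟩ := exists_proj V j τ
  let π : E →ₗ[k] E := LinearMap.id - ∑ i ∈ Finset.range j, (τ i).smulRight (s i)
  have hπ : ∀ v, π v = v - ∑ i ∈ Finset.range j, τ i v • s i := by
    intro v
    simp [π, LinearMap.sum_apply]
  have e1 : TensorProduct.map LinearMap.id π = LinearMap.id - ∑ i ∈ Finset.range j,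
      ((TensorProduct.mk k E E).flip (s i)) ∘ₗ (TensorProduct.rid k E).toLinearMap ∘ₗ
        TensorProduct.map LinearMap.id (τ i) := by
    apply TensorProduct.ext'
    intro f h
    rw [TensorProduct.map_tmul, hπ, LinearMap.sub_apply, LinearMap.sum_apply, TensorProduct.tmul_sub,
      TensorProduct.tmul_sum]
    congr 1
    refine Finset.sum_congr rfl fun i _ => ?_
    simp [TensorProduct.smul_tmul']
  have e2 : TensorProduct.map π LinearMap.id = LinearMap.id - ∑ i ∈ Finset.range j,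
      (TensorProduct.mk k E E (s i)) ∘ₗ (TensorProduct.lid k E).toLinearMap ∘ₗ
        TensorProduct.map (τ i) LinearMap.id := by
    apply TensorProduct.ext'
    intro f h
    rw [TensorProduct.map_tmul, hπ, LinearMap.sub_apply, LinearMap.sum_apply, TensorProduct.sub_tmul,
      TensorProduct.sum_tmul]
    congr 1
    refine Finset.sum_congr rfl fun i _ => ?_
    simp [TensorProduct.smul_tmul]
  have f1 : TensorProduct.map LinearMap.id π H = H := by
    rw [e1, LinearMap.sub_apply, LinearMap.sum_apply, Finset.sum_eq_zero, sub_zero,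
      LinearMap.id_apply]
    intro i hi
    have := h1 i (Finset.mem_range.1 hi)
    rw [LinearMap.comp_apply, LinearMap.comp_apply, LinearEquiv.coe_coe, this, map_zero]
  have f2 : TensorProduct.map π LinearMap.id H = H := by
    rw [e2, LinearMap.sub_apply, LinearMap.sum_apply, Finset.sum_eq_zero, sub_zero,
      LinearMap.id_apply]
    intro i hi
    have := h2 i (Finset.mem_range.1 hi)
    rw [LinearMap.comp_apply, LinearMap.comp_apply, LinearEquiv.coe_coe, this, map_zero]
  have f3 : TensorProduct.map π π H = H := by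
    have : TensorProduct.map π π = TensorProduct.map π LinearMap.id ∘ₗ TensorProduct.map LinearMap.id π := by
      rw [← TensorProduct.map_comp, LinearMap.comp_id, LinearMap.id_comp]
    rw [this, LinearMap.comp_apply, f1, f2]
  have hU : ∀ v ∈ V, π v ∈ V ∧ ∀ l < j, τ l (π v) = 0 := by
    intro v hv
    rw [hπ]
    exact ⟨V.sub_mem hv (V.sum_mem fun i _ => V.smul_mem _ (hs i)), hs2 v hv⟩
  obtain ⟨G, hG⟩ := hH
  rw [← f3, ← hG]
  clear f1 f2 f3 hG h1 h2
  induction G using TensorProduct.induction_on with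
  | zero => rw [map_zero, map_zero]; exact Submodule.zero_mem _
  | tmul a b =>
    rw [TensorProduct.map_tmul, TensorProduct.map_tmul]
    exact Submodule.subset_span ⟨π a, π b, hU a a.2, hU b b.2, rfl⟩
  | add a b ha hb => rw [map_add, map_add]; exact Submodule.add_mem _ ha hb

end linalg

section main
variable {k E : Type} [Field k] [CommRing E] [Algebra k E]

theorem coeff_pow_mul {A : Type} [CommRing A] (p q : PowerSeries A) (j : ℕ)
    (hp : PowerSeries.coeff 0 p = 0) :
    PowerSeries.coeff j (p ^ j * q) = PowerSeries.coeff 1 p ^ j * PowerSeries.coeff 0 q := by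
  obtain ⟨r, hr⟩ : PowerSeries.X ∣ p := by
    rw [PowerSeries.X_dvd_iff, ← PowerSeries.coeff_zero_eq_constantCoeff_apply]; exact hp
  have h1 : PowerSeries.coeff 1 p = PowerSeries.coeff 0 r := by
    rw [hr, ← zero_add 1, PowerSeries.coeff_succ_X_mul]
  have h2 : p ^ j * q = PowerSeries.X ^ j * (r ^ j * q) := by rw [hr]; ring
  rw [h2, PowerSeries.coeff_X_pow_mul', if_pos le_rfl, Nat.sub_self, h1]
  simp [PowerSeries.coeff_zero_eq_constantCoeff_apply]

theorem coeff_zero_mul' {A : Type} [CommRing A] (p q : PowerSeries A) :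
    PowerSeries.coeff 0 (p * q) = PowerSeries.coeff 0 p * PowerSeries.coeff 0 q := by
  simp [PowerSeries.coeff_zero_eq_constantCoeff_apply]

/-- multiplication by `g` in both factors -/
noncomputable def mm (g : E) : E ⊗[k] E →ₗ[k] E ⊗[k] E :=
  TensorProduct.map (LinearMap.mulLeft k g) (LinearMap.mulLeft k g)

/-- abstract `dv` -/
noncomputable def dva (D : E →ₗ[k] E) : E ⊗[k] E →ₗ[k] E :=
  LinearMap.mul' k E ∘ₗ TensorProduct.map D LinearMap.id

/-- abstract `pe` -/
noncomputable def pea (t : E →ₗ[k] k) : E ⊗[k] E →ₗ[k] E :=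
  (TensorProduct.rid k E).toLinearMap ∘ₗ TensorProduct.map LinearMap.id t

theorem dv_mm (D : ℕ → E →ₗ[k] E) (hLeib : ∀ (l : ℕ) (f g : E), D l (f * g) =
    ∑ ij ∈ Finset.HasAntidiagonal.antidiagonal l, D ij.1 f * D ij.2 g) (g : E) (l : ℕ)
    (G : E ⊗[k] E) : dva (D l) (mm g G) =
      ∑ ij ∈ Finset.HasAntidiagonal.antidiagonal l, (g * D ij.1 g) * dva (D ij.2) G := by
  induction G using TensorProduct.induction_on with
  | zero => simp
  | tmul a b =>
    simp only [dva, mm, LinearMap.comp_apply, TensorProduct.map_tmul, LinearMap.mulLeft_apply,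
      LinearMap.id_apply, LinearMap.mul'_apply]
    rw [hLeib, Finset.sum_mul]
    refine Finset.sum_congr rfl fun ij _ => ?_
    ring
  | add a b ha hb =>
    rw [map_add, map_add, ha, hb, ← Finset.sum_add_distrib]
    refine Finset.sum_congr rfl fun ij _ => ?_
    rw [map_add, mul_add]

theorem pe_mm (T : E →+* PowerSeries k) (t : ℕ → E →ₗ[k] k)
    (ht : ∀ l f, t l f = PowerSeries.coeff l (T f)) (g : E) (j : ℕ) (hg : t 0 g = 0)
    (G : E ⊗[k] E) : pea (t j) (mm (g ^ j) G) = (t 1 g ^ j) • (g ^ j * pea (t 0) G) := by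
  induction G using TensorProduct.induction_on with
  | zero => simp
  | tmul a b =>
    simp only [pea, mm, LinearMap.comp_apply, TensorProduct.map_tmul, LinearMap.mulLeft_apply,
      LinearMap.id_apply, LinearEquiv.coe_coe, TensorProduct.rid_tmul]
    rw [ht j, map_mul T, map_pow T, coeff_pow_mul _ _ _ (by rw [← ht]; exact hg), ← ht 1, ← ht 0,
      mul_smul, mul_smul_comm]
  | add a b ha hb =>
    rw [map_add, map_add, ha, hb, map_add, mul_add, smul_add]

theorem T_pe (T : E →+* PowerSeries k) (t : ℕ → E →ₗ[k] k)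
    (ht : ∀ l f, t l f = PowerSeries.coeff l (T f)) (D : ℕ → E →ₗ[k] E)
    (hT0 : ∀ (l : ℕ) (f : E), t 0 (D l f) = t l f) (l : ℕ) (G : E ⊗[k] E) :
      t l (pea (t 0) G) = t 0 (dva (D l) G) := by
  induction G using TensorProduct.induction_on with
  | zero => simp
  | tmul a b =>
    simp only [pea, dva, LinearMap.comp_apply, TensorProduct.map_tmul, LinearMap.mul'_apply,
      LinearMap.id_apply, LinearEquiv.coe_coe, TensorProduct.rid_tmul]
    rw [map_smul, ht 0 (D l a * b), map_mul T, coeff_zero_mul', ← ht, ← ht, hT0, smul_eq_mul, mul_comm]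
  | add a b ha hb =>
    rw [map_add, map_add, ha, hb, map_add, map_add]

theorem pe_mem (V : Submodule k E) (t : E →ₗ[k] k) (H : E ⊗[k] E)
    (hH : H ∈ LinearMap.range (TensorProduct.map V.subtype V.subtype)) : pea t H ∈ V := by
  obtain ⟨G, rfl⟩ := hH
  induction G using TensorProduct.induction_on with
  | zero => rw [map_zero, map_zero]; exact Submodule.zero_mem _
  | tmul a b =>
    simp only [pea, LinearMap.comp_apply, TensorProduct.map_tmul,
      LinearMap.id_apply, LinearEquiv.coe_coe, TensorProduct.rid_tmul]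
    exact V.smul_mem _ a.2
  | add a b ha hb => rw [map_add, map_add]; exact Submodule.add_mem _ ha hb

theorem abstract_ab [IsDomain E] (T : E →+* PowerSeries k) (t : ℕ → E →ₗ[k] k)
    (ht : ∀ l f, t l f = PowerSeries.coeff l (T f)) (D : ℕ → E →ₗ[k] E)
    (hT0 : ∀ (l : ℕ) (f : E), t 0 (D l f) = t l f)
    (hLeib : ∀ (l : ℕ) (f g : E), D l (f * g) =
      ∑ ij ∈ Finset.HasAntidiagonal.antidiagonal l, D ij.1 f * D ij.2 g)
    (hD0 : ∀ f, D 0 f = f) (θ : E) (hθ0 : θ ≠ 0) (hθz : t 0 θ = 0)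
    (V V' : Submodule k E) (j γ : ℕ)
    (hdiv : ∀ u ∈ V, (∀ l < j, t l u = 0) → ∃ u' ∈ V', u = θ ^ j * u')
    (H : E ⊗[k] E) (hH : H ∈ LinearMap.range (TensorProduct.map V.subtype V.subtype))
    (hpe : ∀ l < j, pea (t l) H = 0)
    (hpe' : ∀ l < j, (TensorProduct.lid k E) (TensorProduct.map (t l) LinearMap.id H) = 0)
    (hdv : ∀ l < γ, dva (D l) H = 0) :
    ∃ H' : E ⊗[k] E, H' ∈ LinearMap.range (TensorProduct.map V'.subtype V'.subtype) ∧
      (∀ l < γ, dva (D l) H' = 0) ∧ H = mm (θ ^ j) H' ∧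
      ∃ f'' ∈ V', (∀ l < γ, t l f'' = 0) ∧ pea (t j) H = (t 1 θ ^ j) • (θ ^ j * f'') := by
  have hθj : θ ^ j ≠ 0 := pow_ne_zero _ hθ0
  have hfac : H ∈ Submodule.map (mm (θ ^ j)) (LinearMap.range
      (TensorProduct.map V'.subtype V'.subtype)) := by
    have hm := mem_UU V j t H hH (fun l hl => hpe l hl) (fun l hl => hpe' l hl)
    refine Submodule.span_le.2 ?_ hm
    rintro z ⟨u, w, ⟨huV, hu⟩, ⟨hwV, hw⟩, rfl⟩
    obtain ⟨u', hu', rfl⟩ := hdiv u huV hu
    obtain ⟨w', hw', rfl⟩ := hdiv w hwV hw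
    exact ⟨u' ⊗ₜ w', ⟨(⟨u', hu'⟩ : V') ⊗ₜ (⟨w', hw'⟩ : V'), rfl⟩, rfl⟩
  obtain ⟨H', hH', rfl⟩ := hfac
  have hdvmm := dv_mm D hLeib (θ ^ j)
  have hdv' : ∀ l < γ, dva (D l) H' = 0 := by
    intro l
    induction l using Nat.strong_induction_on with
    | _ l ih =>
      intro hl
      have e := hdvmm l H'
      rw [hdv l hl, Finset.sum_eq_single (0, l)] at e
      · simp only [hD0] at e
        rcases mul_eq_zero.1 e.symm with h | h
        · rcases mul_eq_zero.1 h with h | h <;> exact absurd h hθj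
        · exact h
      · rintro ⟨a, b⟩ hab hne
        rw [Finset.HasAntidiagonal.mem_antidiagonal] at hab
        simp only at hab
        have hb : b < l := by
          rcases Nat.eq_zero_or_pos a with h | h
          · subst h; exact absurd (by rw [← hab, zero_add]) hne
          · omega
        simp only
        rw [ih b hb (hb.trans hl), mul_zero]
      · intro h
        exact absurd (Finset.HasAntidiagonal.mem_antidiagonal.2 (by simp)) h
  refine ⟨H', hH', hdv', rfl, pea (t 0) H', pe_mem V' _ H' hH', ?_, pe_mm T t ht θ j hθz H'⟩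
  intro l hl
  rw [T_pe T t ht D hT0, hdv' l hl, map_zero]

end main

theorem ab (h1 : S_rules) (h2 : S_T) (h3 : S_Th) (h4 : S_theta) (h5 : S_div) (h6 : S_b0) : S_AB := by
  intro Γ K _ _ _ _ _ P hP n c x j γ H hH hpe hpe' hdv
  obtain ⟨hdom, -⟩ := h1 Γ K
  obtain ⟨-, -, -, -, hT0, hLeib, hD0⟩ := h2 Γ K
  obtain ⟨-, hθ0, hθz, hθ1, -⟩ := h4 Γ K P hP x
  obtain ⟨H', hH', hdv', hHH, f'', hf'', hz, hpeq⟩ := abstract_ab (k := HG Γ K) (E := Ent Γ K) (T x)
    (fun l => Tl x l) (fun l f => rfl) (fun l => DlL l) (fun l f => hT0 x l f)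
    (fun l f g => hLeib l f g) (fun f => hD0 f) (theta P x) hθ0 hθz (Th P n c)
    (Th P (n - j) (c * ng x ^ (-(j : ℤ)))) j γ
    (fun u hu hu2 => h5 Γ K P hP n c x u hu j hu2) H hH hpe hpe' hdv
  refine ⟨?_, ?_⟩
  · obtain ⟨Φ', hΦ', hΦ2⟩ := h5 Γ K P hP (n - j) (c * ng x ^ (-(j : ℤ))) x f'' hf'' γ hz
    refine ⟨(PowerSeries.coeff 1 (T x (theta P x)) ^ j) • Φ', ?_, ?_⟩
    · have e1 : c * ng x ^ (-(j : ℤ)) * ng x ^ (-(γ : ℤ)) = c * ng x ^ (-((j : ℤ) + γ)) := by
        rw [mul_assoc, ← zpow_add]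
        congr 2
        ring
      rw [← e1]
      exact (Th P (n - j - γ) (c * ng x ^ (-(j : ℤ)) * ng x ^ (-(γ : ℤ)))).smul_mem _ hΦ'
    · have e2 : theta P x ^ (j + γ) * ((PowerSeries.coeff 1 (T x (theta P x)) ^ j) • Φ') =
          (PowerSeries.coeff 1 (T x (theta P x)) ^ j) • (theta P x ^ j * (theta P x ^ γ * Φ')) := by
        rw [mul_smul_comm, pow_add, mul_assoc]
      rw [e2, ← hΦ2]
      exact hpeq
  · intro hn
    have h0 := h6 Γ K P hP (n - j) (c * ng x ^ (-(j : ℤ))) γ H' hH' hdv' (by linarith)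
    rw [hHH, h0, map_zero]

end Pool.Agent.H922.TH
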